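import Pool.Agent.Y501.SY.Stm

/-!
Project SY: sets of two-dimensional Hausdorff measure zero in a compact manifold have null image
under every smooth map to the plane.
-/

set_option autoImplicit false

open Set Filter Topology MeasureTheory
open scoped Manifold ContDiff ENNReal

namespace Pool.Agent.Y391.SY

open Pool.Agent.Y501.SY

/-- The local statement. -/
theorem local_null {d : ℕ} {X : Type} [TopologicalSpace X] [ChartedSpace (E d) X]
    [IsManifold (𝓡 d) ∞ X] {C : Set X} {f g : X → ℝ} (hf : SmoothFun (d := d) f)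
    (hg : SmoothFun (d := d) g) (x : X)
    (hC : μH[2] (chartAt (E d) x '' (C ∩ (chartAt (E d) x).source)) = 0) :
    ∃ N ∈ 𝓝 x, volume ((fun x => (f x, g x)) '' (C ∩ N)) = 0 := by
  set c := chartAt (E d) x with hc
  have hx : x ∈ c.source := mem_chart_source (E d) x
  have hsymm : ContMDiffOn (𝓡 d) (𝓡 d) ∞ c.symm c.target := contMDiffOn_chart_symm
  have h1 : ContDiffOn ℝ ∞ (fun p => f (c.symm p)) c.target :=
    contMDiffOn_iff_contDiffOn.1 (hf.comp_contMDiffOn hsymm)
  have h2 : ContDiffOn ℝ ∞ (fun p => g (c.symm p)) c.target :=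
    contMDiffOn_iff_contDiffOn.1 (hg.comp_contMDiffOn hsymm)
  have h3 : ContDiffOn ℝ ∞ (fun p => (f (c.symm p), g (c.symm p))) c.target := h1.prodMk h2
  have h4 : ContDiffAt ℝ 1 (fun p => (f (c.symm p), g (c.symm p))) (c x) :=
    (h3.contDiffAt (c.open_target.mem_nhds (c.map_source hx))).of_le (by simp)
  obtain ⟨K, t, ht, hK⟩ := h4.exists_lipschitzOnWith
  refine ⟨c.source ∩ c ⁻¹' t, Filter.inter_mem (c.open_source.mem_nhds hx)
    ((c.continuousAt hx).preimage_mem_nhds ht), ?_⟩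
  rw [← hausdorffMeasure_prod_real]
  have h5 : (fun x => (f x, g x)) '' (C ∩ (c.source ∩ c ⁻¹' t)) ⊆
      (fun p => (f (c.symm p), g (c.symm p))) '' (t ∩ c '' (C ∩ c.source)) := by
    rintro _ ⟨y, ⟨hyC, hys, hyt⟩, rfl⟩
    refine ⟨c y, ⟨hyt, y, ⟨hyC, hys⟩, rfl⟩, ?_⟩
    simp only [c.left_inv hys]
  refine measure_mono_null h5 ?_
  have h6 := (hK.mono (inter_subset_left (s := t)
    (t := c '' (C ∩ c.source)))).hausdorffMeasure_image_le (d := 2) zero_le_two
  have h7 : μH[2] (t ∩ c '' (C ∩ c.source)) = 0 := measure_mono_null inter_subset_right hC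
  rw [h7, mul_zero] at h6
  exact le_antisymm h6 zero_le

/-- Sets of two-dimensional Hausdorff measure zero are planar null. -/
theorem t_HAUS : Pool.Agent.Y501.SY.S_HAUS := by
  intro d X _ _ _ _ C hC f g hf hg
  choose N hN hN0 using fun x => local_null hf hg x (hC x)
  obtain ⟨s, hs⟩ := CompactSpace.elim_nhds_subcover N hN
  have h1 : (fun x => (f x, g x)) '' C ⊆ ⋃ x ∈ s, (fun x => (f x, g x)) '' (C ∩ N x) := by
    rintro _ ⟨y, hy, rfl⟩
    have h2 : y ∈ ⋃ x ∈ s, N x := by
      rw [hs]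
      trivial
    simp only [mem_iUnion] at h2 ⊢
    obtain ⟨x, hx, hyx⟩ := h2
    exact ⟨x, hx, y, ⟨hy, hyx⟩, rfl⟩
  refine measure_mono_null h1 ?_
  have h3 : volume (⋃ x ∈ (s : Set X), (fun x => (f x, g x)) '' (C ∩ N x)) = 0 :=
    (measure_biUnion_null_iff s.countable_toSet).2 fun x _ => hN0 x
  exact h3

end Pool.Agent.Y391.SY
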