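import Pool.Agent.Y501.SY.StmA
import Pool.Agent.Y604.SY.Pull

/-!
Project SYA: invariant closed forms descend along a normal covering.
-/

set_option autoImplicit false

open Set Filter Topology MeasureTheory
open scoped Manifold ContDiff

noncomputable section

namespace Pool.Agent.Y391.SY

open Pool.Agent.Y501.SY Pool.Agent.Y604.SY

/-- Invariant closed forms descend. -/
theorem t_DESC : Pool.Agent.Y501.SY.S_DESC := by
  intro d Z X _ _ _ _ _ _ Γ _ _ pr hΓ hloc hsurj hfib w hw hwc hinv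
  have hn : (∞ : WithTop ℕ∞) ≠ 0 := by simp
  have hB : ∀ z : Z, ∃ B : E d ≃L[ℝ] E d,
      (B : E d →L[ℝ] E d) = mfderiv (𝓡 d) (𝓡 d) pr z := fun z =>
    ⟨(hloc z).mfderivToContinuousLinearEquiv hn, (hloc z).mfderivToContinuousLinearEquiv_coe hn⟩
  choose B hB using hB
  have hmp : ∀ z, MDifferentiableAt (𝓡 d) (𝓡 d) pr z := fun z => (hloc z).mdifferentiableAt hn
  obtain ⟨s, hs⟩ : ∃ s : X → Z, ∀ x, pr (s x) = x :=
    ⟨Function.surjInv hsurj, Function.surjInv_eq hsurj⟩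
  let σ : Form d X 2 := fun x =>
    (w (s x) : (E d) [⋀^Fin 2]→L[ℝ] ℝ).compContinuousLinearMap
      ((B (s x)).symm : E d →L[ℝ] E d)
  have hprγ : ∀ (γ : Γ) (z : Z), pr (γ • z) = pr z := fun γ z =>
    ((hfib z (γ • z)).2 ⟨γ, rfl⟩).symm
  have hpull : ∀ z, pull (d := d) pr σ z = w z := by
    intro z
    obtain ⟨γ, hγ⟩ := (hfib z (s (pr z))).1 (hs (pr z)).symm
    have h1 : pull (d := d) (fun z : Z => γ • z) w z = w z := congrFun (hinv γ) z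
    have hmd : MDifferentiableAt (𝓡 d) (𝓡 d) (fun z : Z => γ • z) z :=
      (hΓ γ z).mdifferentiableAt hn
    have h2 : ∀ v : E d, (mfderiv (𝓡 d) (𝓡 d) pr z : E d →L[ℝ] E d) v =
        (mfderiv (𝓡 d) (𝓡 d) pr (γ • z) : E d →L[ℝ] E d)
          ((mfderiv (𝓡 d) (𝓡 d) (fun z : Z => γ • z) z : E d →L[ℝ] E d) v) := by
      intro v
      have h3 : (mfderiv (𝓡 d) (𝓡 d) (pr ∘ (fun z : Z => γ • z)) z : E d →L[ℝ] E d) =
          (mfderiv (𝓡 d) (𝓡 d) pr (γ • z) : E d →L[ℝ] E d).comp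
            (mfderiv (𝓡 d) (𝓡 d) (fun z : Z => γ • z) z : E d →L[ℝ] E d) :=
        mfderiv_comp z (hmp _) hmd
      have h4 : pr ∘ (fun z : Z => γ • z) = pr := funext fun z => hprγ γ z
      rw [h4] at h3
      exact congrArg (fun T : E d →L[ℝ] E d => T v) h3
    have claim : ∀ (y : Z), γ • z = y → ∀ v : Fin 2 → E d,
        (w y : (E d) [⋀^Fin 2]→L[ℝ] ℝ)
          (fun i => (B y).symm ((mfderiv (𝓡 d) (𝓡 d) pr z : E d →L[ℝ] E d) (v i))) =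
        (w z : (E d) [⋀^Fin 2]→L[ℝ] ℝ) v := by
      rintro _ rfl v
      have h5 : (fun i => (B (γ • z)).symm
          ((mfderiv (𝓡 d) (𝓡 d) pr z : E d →L[ℝ] E d) (v i))) =
          fun i => (mfderiv (𝓡 d) (𝓡 d) (fun z : Z => γ • z) z : E d →L[ℝ] E d) (v i) := by
        funext i
        rw [ContinuousLinearEquiv.symm_apply_eq, h2 (v i), ← hB (γ • z)]
        rfl
      rw [h5]
      exact congrArg (fun T : (E d) [⋀^Fin 2]→L[ℝ] ℝ => T v) h1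
    ext v
    exact claim _ hγ v
  have key : ∀ (U : Set (E d)) (φ : E d → X), IsOpen U → ContMDiffOn (𝓡 d) (𝓡 d) ∞ φ U →
      ∀ p₀ ∈ U, ∃ (U' : Set (E d)) (ψ : E d → Z), IsOpen U' ∧ p₀ ∈ U' ∧
        ContMDiffOn (𝓡 d) (𝓡 d) ∞ ψ U' ∧ ∀ p ∈ U', pb φ σ p = pb ψ w p := by
    intro U φ hU hφ p₀ hp₀
    obtain ⟨z₀, hz₀⟩ := hsurj (φ p₀)
    obtain ⟨Φ, hz, hΦ⟩ := hloc z₀
    have hU' : IsOpen (U ∩ φ ⁻¹' Φ.target) :=
      hφ.continuousOn.isOpen_inter_preimage hU Φ.open_target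
    have hψ : ContMDiffOn (𝓡 d) (𝓡 d) ∞ (Φ.symm ∘ φ) (U ∩ φ ⁻¹' Φ.target) :=
      Φ.contMDiffOn_invFun.comp (hφ.mono inter_subset_left) fun p hp => hp.2
    refine ⟨U ∩ φ ⁻¹' Φ.target, Φ.symm ∘ φ, hU', ⟨hp₀, ?_⟩, hψ, ?_⟩
    · show φ p₀ ∈ Φ.target
      rw [← hz₀, hΦ hz]
      exact Φ.map_source hz
    · intro p hp
      have hψp : MDifferentiableAt (𝓡 d) (𝓡 d) (Φ.symm ∘ φ) p :=
        ((hψ p hp).contMDiffAt (hU'.mem_nhds hp)).mdifferentiableAt hn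
      have h1 : φ =ᶠ[𝓝 p] pr ∘ (Φ.symm ∘ φ) := by
        filter_upwards [hU'.mem_nhds hp] with r hr
        have h2 : Φ.symm (φ r) ∈ Φ.source := Φ.map_target hr.2
        show φ r = pr (Φ.symm (φ r))
        rw [hΦ h2]
        exact (Φ.right_inv hr.2).symm
      have h2 : pb φ σ p = pbG σ (pr ∘ (Φ.symm ∘ φ)) p := pbG_congr σ h1
      have h3 : pull (d := d) pr σ ((Φ.symm ∘ φ) p) = w ((Φ.symm ∘ φ) p) := hpull _
      rw [h2, pbG_comp σ (hmp _) hψp]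
      exact congrArg (fun T : (E d) [⋀^Fin 2]→L[ℝ] ℝ => T.compContinuousLinearMap
        (mfderiv (𝓡 d) (𝓡 d) (Φ.symm ∘ φ) p : E d →L[ℝ] E d)) h3
  refine ⟨σ, ?_, ?_, funext hpull⟩
  · intro U φ hU hφ p₀ hp₀
    obtain ⟨U', ψ, hU', hp, hψ, he⟩ := key U φ hU hφ p₀ hp₀
    have h1 := (hw U' ψ hU' hψ).contDiffAt (hU'.mem_nhds hp)
    have h2 : pb φ σ =ᶠ[𝓝 p₀] pb ψ w := by
      filter_upwards [hU'.mem_nhds hp] with p hp using he p hp
    exact (h1.congr_of_eventuallyEq h2).contDiffWithinAt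
  · intro U φ hU hφ p₀ hp₀
    obtain ⟨U', ψ, hU', hp, hψ, he⟩ := key U φ hU hφ p₀ hp₀
    have h2 : pb φ σ =ᶠ[𝓝 p₀] pb ψ w := by
      filter_upwards [hU'.mem_nhds hp] with p hp using he p hp
    have h3 := hwc U' ψ hU' hψ p₀ hp
    rw [h2.extDeriv_eq, h3]
    ext v
    rfl

end Pool.Agent.Y391.SY
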